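import Pool.Agent.Helper70.GUM.St1

/-!
Project GUM (helper70), module BAS: basic facts on the functions on the Heisenberg group.
-/

set_option autoImplicit false

namespace Pool.Agent.Helper36.GUM

open Pool.Agent.Helper70.GUM Module OG UN
open scoped Classical

universe u v w z

section

variable {k : Type u} {F : Type v} {R : Type w} {K : Type z} [Field k] [Field F]
  [Algebra k F] {σ : F ≃ₐ[k] F} [CommRing R] [Field K] [Algebra R K]

private theorem b_cadd (hσ : QE σ) (z z' : F) (hz : z + σ z = 0) (hz' : z' + σ z' = 0) :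
    cen hσ (z + z') = cen hσ z * cen hσ z' := by
  have h : z + z' + σ (z + z') = 0 := by rw [map_add]; linear_combination hz + hz'
  ext
  · rw [Hei.mul_a, cen_a h, cen_a hz, cen_a hz', add_zero]
  · rw [Hei.mul_c, cen_c h, cen_c hz, cen_c hz', cen_a hz']
    ring

private theorem neg_ok {z : F} (hz : z + σ z = 0) : -z + σ (-z) = 0 := by
  rw [map_neg]; linear_combination -hz

private theorem b_cinv (hσ : QE σ) (z : F) (hz : z + σ z = 0) :
    (cen hσ z)⁻¹ = cen hσ (-z) := by
  ext
  · rw [Hei.inv_a, cen_a hz, cen_a (neg_ok hz), neg_zero]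
  · rw [Hei.inv_c, cen_c hz, cen_c (neg_ok hz)]
    linear_combination hz

private theorem b_ccom (hσ : QE σ) (z : F) (g : Hei hσ) (hz : z + σ z = 0) :
    cen hσ z * g = g * cen hσ z := by
  ext
  · rw [Hei.mul_a, Hei.mul_a]
    ring
  · rw [Hei.mul_c, Hei.mul_c, cen_a hz, cen_c hz, map_zero]
    ring

private theorem b_fcen (hσ : QE σ) (χ : AddChar F R) (f : Hei hσ → K) (hf : f ∈ Fun R K hσ χ)
    (g h : Hei hσ) (z : F) (hz : z + σ z = 0) :
    f (g * (cen hσ z * h)) = χ (-z) • f (g * h) := by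
  rw [← mul_assoc, ← b_ccom hσ z g hz, mul_assoc]
  exact hf (g * h) z hz

private theorem b_DD (hσ : QE σ) (χ : AddChar F R) (g : Hei hσ) (hg : g.a = 0) :
    DD K hσ χ g = algebraMap R K (χ (-g.c)) := by
  unfold DD
  rw [if_pos hg]

private theorem b_DD0 (hσ : QE σ) (χ : AddChar F R) (g : Hei hσ) (hg : g.a ≠ 0) :
    DD K hσ χ g = 0 := by
  unfold DD
  rw [if_neg hg]

end

theorem hBAS : StBAS.{u, v, w, z} := by
  intro k F R K _ _ _ _ σ _ _ _ hσ χ r
  refine
    { cadd := b_cadd hσ
      cinv := b_cinv hσ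
      ccom := b_ccom hσ
      fcen := b_fcen hσ χ
      ltcen := ?_
      ltF := ?_
      ltmul := ?_
      xrF := ?_
      xlF := ?_
      ltV := ?_
      xrV := ?_
      xlV := ?_
      xrlt := ?_
      xrxl := ?_
      xlsum := ?_
      DF := ?_
      DV := ?_
      Dcom := ?_
      exp := ?_ }
  · intro f hf z hz
    funext g
    rw [Lt_apply, b_cinv hσ z hz, hf g (-z) (neg_ok hz), neg_neg, Pi.smul_apply]
  · intro u f hf g z hz
    rw [Lt_apply, Lt_apply]
    exact b_fcen hσ χ f hf u⁻¹ g z hz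
  · intro u u' f
    funext g
    rw [Lt_apply, Lt_apply, Lt_apply, mul_inv_rev, mul_assoc]
  · intro ε f hf g z hz
    have e : ∑ a : F, f (cen hσ z * g * sc hσ ε a) = χ (-z) • ∑ a : F, f (g * sc hσ ε a) := by
      rw [Finset.smul_sum]
      refine Finset.sum_congr rfl fun a _ => ?_
      rw [mul_assoc]
      exact hf _ z hz
    rw [XR_apply, XR_apply, smul_neg, smul_comm (χ (-z)) r, e]
  · intro ε f hf g z hz
    have e : ∑ a : F, f ((sc hσ ε a)⁻¹ * (cen hσ z * g)) =
        χ (-z) • ∑ a : F, f ((sc hσ ε a)⁻¹ * g) := by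
      rw [Finset.smul_sum]
      refine Finset.sum_congr rfl fun a _ => ?_
      exact b_fcen hσ χ f hf _ g z hz
    rw [XL_apply, XL_apply, smul_neg, smul_comm (χ (-z)) r, e]
  · intro J u f hf g
    exact hf _
  · intro J ε f hf g
    rw [XR_apply]
    exact J.neg_mem (J.smul_mem _ (J.sum_mem fun a _ => hf _))
  · intro J ε f hf g
    rw [XL_apply]
    exact J.neg_mem (J.smul_mem _ (J.sum_mem fun a _ => hf _))
  · intro ε u f
    funext g
    rw [XR_apply, Lt_apply, XR_apply]
    congr 2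
    refine Finset.sum_congr rfl fun a _ => ?_
    rw [Lt_apply, mul_assoc]
  · intro ε ε' f
    funext g
    rw [XR_apply, XL_apply]
    congr 2
    simp only [XR_apply, XL_apply, Finset.sum_neg_distrib, ← Finset.smul_sum]
    rw [Finset.sum_comm]
    congr 2
    refine Finset.sum_congr rfl fun b _ => Finset.sum_congr rfl fun a _ => ?_
    rw [mul_assoc]
  · intro ε f
    funext g
    rw [XL_apply, Pi.neg_apply, Pi.smul_apply, Finset.sum_apply]
    rfl
  · intro g z hz
    have e1 : (cen hσ z * g).a = g.a := by rw [Hei.mul_a, cen_a hz, zero_add]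
    have e2 : (cen hσ z * g).c = z + g.c := by
      rw [Hei.mul_c, cen_a hz, cen_c hz, map_zero, mul_zero, add_zero]
    by_cases hg : g.a = 0
    · rw [b_DD hσ χ g hg, b_DD hσ χ _ (by rw [e1, hg]), e2, neg_add, AddChar.map_add_eq_mul,
        map_mul, Algebra.smul_def]
    · rw [b_DD0 hσ χ g hg, b_DD0 hσ χ _ (by rw [e1]; exact hg), smul_zero]
  · intro g
    by_cases hg : g.a = 0
    · rw [b_DD hσ χ g hg]
      exact Submodule.mem_one.2 ⟨_, rfl⟩
    · rw [b_DD0 hσ χ g hg]
      exact Submodule.zero_mem _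
  · intro g h
    by_cases ha : g.a + h.a = 0
    · have h1 : (g * h).a = 0 := by rw [Hei.mul_a, ha]
      have h2 : (h * g).a = 0 := by rw [Hei.mul_a, add_comm, ha]
      rw [b_DD hσ χ _ h1, b_DD hσ χ _ h2]
      congr 3
      rw [Hei.mul_c, Hei.mul_c]
      have h3 : h.a = -g.a := eq_neg_of_add_eq_zero_right ha
      rw [h3, map_neg]
      ring
    · have h1 : (g * h).a ≠ 0 := by rw [Hei.mul_a]; exact ha
      have h2 : (h * g).a ≠ 0 := by rw [Hei.mul_a, add_comm]; exact ha
      rw [b_DD0 hσ χ _ h1, b_DD0 hσ χ _ h2]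
  · intro f hf ε hε g
    rw [Finset.sum_eq_single g.a]
    · set s : Hei hσ := sc hσ ε g.a with hs
      have ha : (s⁻¹ * g).a = 0 := by
        rw [Hei.mul_a, Hei.inv_a, hs, sc_a hε]
        ring
      have hz : (s⁻¹ * g).c + σ (s⁻¹ * g).c = 0 := by
        rw [(s⁻¹ * g).h, ha, zero_mul]
      have hc : cen hσ (s⁻¹ * g).c = s⁻¹ * g := by
        ext
        · rw [cen_a hz, ha]
        · rw [cen_c hz]
      have hg : g = cen hσ (s⁻¹ * g).c * s := by
        rw [b_ccom hσ _ s hz, hc, mul_inv_cancel_left]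
      rw [b_DD hσ χ _ ha]
      conv_lhs => rw [hg]
      rw [hf s _ hz, Algebra.smul_def, mul_comm]
    · intro a _ hne
      rw [b_DD0 hσ χ _, mul_zero]
      rw [Hei.mul_a, Hei.inv_a, sc_a hε]
      intro h0
      exact hne (by linear_combination -h0)
    · intro h0
      exact absurd (Finset.mem_univ _) h0

end Pool.Agent.Helper36.GUM
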