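import Pool.Agent.Helper70.GUM.St2

/-!
Project GUM (helper70), module BL2: block functions.
-/

set_option autoImplicit false

namespace Pool.Agent.Helper36.GUM

open Pool.Agent.Helper70.GUM Module OG UN
open scoped Classical

universe u v w z y o

section

variable {k : Type u} {F : Type v} {R : Type w} {K : Type z} [Field k] [Fintype k]
  [Field F] [Fintype F] [Algebra k F] {σ : F ≃ₐ[k] F} [CommRing R] [Field K] [Algebra R K]
  {hσ : QE σ} {χ : AddChar F R} {r : R} {x : F}

private theorem sum_chi (hS : Sums σ χ x) (t : F) :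
    ∑ b : F, χ (b * t) = if t = 0 then ((Nat.card k : ℕ) : R) ^ 2 else 0 := by
  split_ifs with h
  · rw [h]
    simp only [mul_zero, AddChar.map_zero_eq_one, Finset.sum_const, Finset.card_univ,
      nsmul_eq_mul, mul_one]
    rw [hS.cardF]
    push_cast
    rfl
  · rw [← hS.sF t h]
    exact Finset.sum_congr rfl fun b _ => by rw [mul_comm]

private theorem sum_F0 (hS : Sums σ χ x) : ∑ z ∈ F0 σ, χ (-z) = 0 := by
  rw [← hS.s0 (-1) (neg_ne_zero.2 one_ne_zero)]
  refine Finset.sum_congr rfl fun z _ => ?_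
  have e : algebraMap k F (-1) * z = -z := by rw [map_neg, map_one, neg_one_mul]
  rw [e]

omit [Algebra R K] in
private theorem ind_sum (hC : Ctx K σ χ r x) (hS : Sums σ χ x) (a a' t : F) :
    r ^ 2 * ∑ b ∈ Finset.univ.erase (0 : F), (χ (b * a) - χ (b * a')) * χ (-(b * t)) =
      (if t = a then 1 else 0) - (if t = a' then 1 else 0) := by
  have h1 : ∑ b ∈ Finset.univ.erase (0 : F), (χ (b * a) - χ (b * a')) * χ (-(b * t)) =
      ∑ b : F, (χ (b * a) - χ (b * a')) * χ (-(b * t)) := by
    rw [← Finset.add_sum_erase Finset.univ _ (Finset.mem_univ (0 : F))]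
    simp
  have h2 : ∑ b : F, (χ (b * a) - χ (b * a')) * χ (-(b * t)) =
      ∑ b : F, χ (b * (a - t)) - ∑ b : F, χ (b * (a' - t)) := by
    rw [← Finset.sum_sub_distrib]
    refine Finset.sum_congr rfl fun b _ => ?_
    rw [sub_mul, ← AddChar.map_add_eq_mul, ← AddChar.map_add_eq_mul, mul_sub, mul_sub,
      sub_eq_add_neg (b * a), sub_eq_add_neg (b * a')]
  have hr : r ^ 2 * ((Nat.card k : ℕ) : R) ^ 2 = 1 := by
    rw [← mul_pow, hC.inv, one_pow]
  rw [h1, h2, sum_chi hS, sum_chi hS, mul_sub]
  congr 1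
  · by_cases h : t = a
    · rw [if_pos (by rw [h, sub_self]), if_pos h, hr]
    · rw [if_neg (fun h0 => h (sub_eq_zero.1 h0).symm), if_neg h, mul_zero]
  · by_cases h : t = a'
    · rw [if_pos (by rw [h, sub_self]), if_pos h, hr]
    · rw [if_neg (fun h0 => h (sub_eq_zero.1 h0).symm), if_neg h, mul_zero]

end

theorem hBL2 (hBL0 : StBL0.{u, v, w, z, y, o}) : StBL2.{u, v, w, z, y, o} := by
  intro k F R K E Ω _ _ _ _ _ σ _ _ _ _ hσ _ _ H S G χ r x hC hS hB hA N hN κ hκ g c hc
  have hth : ∀ b : F, b ≠ 0 → (fun s => κ * G.th K χ b s) ∈ N :=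
    fun b hb => ((hBL0 G hS hA N hN b hb).1 κ).1 hκ
  -- (a) differences of indicator functions
  have hind : ∀ a a' : F, G.ext (fun v : Hei hσ =>
      κ * ((if v.a = a then 1 else 0) - (if v.a = a' then 1 else 0))) ∈ N := by
    intro a a'
    have e : G.ext (fun v : Hei hσ =>
        κ * ((if v.a = a then 1 else 0) - (if v.a = a' then 1 else 0))) =
        r ^ 2 • ∑ b ∈ Finset.univ.erase (0 : F), (χ (b * a) - χ (b * a')) •
          (fun s => κ * G.th K χ b s) := by
      funext s
      rw [Pi.smul_apply, Finset.sum_apply]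
      by_cases h : ∃ v, s = G.w v
      · obtain ⟨v, rfl⟩ := h
        rw [G.ext_w]
        have h1 := congrArg (algebraMap R K) (ind_sum hC hS a a' v.a)
        rw [map_sub, map_mul, map_sum] at h1
        have h2 : ∀ P : Prop, algebraMap R K (if P then (1 : R) else 0) = if P then 1 else 0 := by
          intro P
          split_ifs
          · exact map_one _
          · exact map_zero _
        rw [h2, h2] at h1
        rw [← h1, Algebra.smul_def, mul_left_comm, Finset.mul_sum]
        congr 1
        refine Finset.sum_congr rfl fun b _ => ?_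
        rw [Pi.smul_apply, Algebra.smul_def, G3.th, G.ext_w, map_mul]
        ring
      · have h' : ∀ v, s ≠ G.w v := fun v hv => h ⟨v, hv⟩
        rw [G.ext_no _ s h', Finset.sum_eq_zero, smul_zero]
        intro b _
        rw [Pi.smul_apply, G3.th, G.ext_no _ s h', mul_zero, smul_zero]
    rw [e]
    refine N.smul_mem _ (N.sum_mem fun b hb => N.smul_mem _ (hth b ?_))
    exact Finset.ne_of_mem_erase hb
  -- (b) the element `g₀`
  obtain ⟨n, hn⟩ := hS.trc c
  obtain ⟨β, hβ⟩ := hσ.nrm n
  have hβc : c + σ c = β * σ β := by rw [hβ, hn]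
  have hβ0 : β ≠ 0 := by
    intro h0
    apply hc
    rw [hβc, h0, zero_mul]
  have hσβ : σ β ≠ 0 := by
    intro h0
    exact hβ0 ((map_eq_zero_iff σ σ.injective).1 h0)
  set g₀ : Hei hσ := pt hσ β c with hg₀
  have hg₀a : g₀.a = β := pt_a hβc
  have hg₀c : g₀.c = c := pt_c hβc
  set T : Ω → K := G.ext (fun v : Hei hσ =>
    κ * ((if v.a = -1 / σ β then 1 else 0) - (if v.a = 0 then 1 else 0))) with hT
  have hTN : T ∈ N := hind _ _
  set F1 : Ω → K := act (G.e g₀) (act G.n T) with hF1
  have hF1N : F1 ∈ N := hN.stab _ (G.e_mem _) _ (hN.stab _ G.n_mem _ hTN)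
  have hF1w : ∀ h : Hei hσ, F1 (G.w h) =
      κ * ((if h.c = c then 1 else 0) - (if h.a = β then 1 else 0)) := by
    intro h
    rw [hF1, hA.ew]
    by_cases hu : g₀⁻¹ * h = 1
    · rw [hu, hA.nw1, hT, G.ext_w0]
      have e : h = g₀ := (inv_mul_eq_one.1 hu).symm
      rw [e, hg₀a, hg₀c, if_pos rfl, if_pos rfl, sub_self, mul_zero]
    · rw [hA.nw _ _ hu, hT, G.ext_w]
      set l : Hei hσ := g₀⁻¹ * h with hl
      have hlc : l.c ≠ 0 := Hei.c_ne l hu
      have hla : l.a = h.a - β := by
        rw [hl, Hei.mul_a, Hei.inv_a, hg₀a]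
        ring
      have hlc' : l.c = σ c + h.c - h.a * σ β := by
        rw [hl, Hei.mul_c, Hei.inv_c, Hei.inv_a, hg₀a, hg₀c, map_neg]
        ring
      have i1 : (ivn l).a = -1 / σ β ↔ h.c = c := by
        rw [ivn_a l hlc, div_eq_div_iff hlc hσβ, hla, hlc']
        constructor
        · intro e
          linear_combination e - hβc
        · intro e
          linear_combination e + hβc
      have i2 : (ivn l).a = 0 ↔ h.a = β := by
        rw [ivn_a l hlc, div_eq_zero_iff, hla]
        constructor
        · rintro (e | e)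
          · exact sub_eq_zero.1 e
          · exact absurd e hlc
        · intro e
          left
          exact sub_eq_zero.2 e
      simp only [i1, i2]
  -- (c) average over the centre
  set F2 : Ω → K := ∑ z ∈ F0 σ, χ (-z) • act (G.e (cen hσ z)) F1 with hF2
  have hF2N : F2 ∈ N :=
    N.sum_mem fun z _ => N.smul_mem _ (hN.stab _ (G.e_mem _) _ hF1N)
  have hsK : ∑ z ∈ F0 σ, algebraMap R K (χ (-z)) = 0 := by
    rw [← map_sum, sum_F0 hS, map_zero]
  have hF2w0 : F2 G.w0 = 0 := by
    rw [hF2, Finset.sum_apply]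
    have e : ∀ z ∈ F0 σ, (χ (-z) • act (G.e (cen hσ z)) F1) G.w0 =
        algebraMap R K (χ (-z)) * F1 G.w0 := by
      intro z _
      rw [Pi.smul_apply, hA.ew0, Algebra.smul_def]
    rw [Finset.sum_congr rfl e, ← Finset.sum_mul, hsK, zero_mul]
  have hF2w : ∀ h : Hei hσ, F2 (G.w h) =
      κ * (if c + σ c = h.a * σ h.a then algebraMap R K (χ (-(h.c - c))) else 0) := by
    intro h
    rw [hF2, Finset.sum_apply]
    have e : ∀ z ∈ F0 σ, (χ (-z) • act (G.e (cen hσ z)) F1) (G.w h) =
        κ * (if z = h.c - c then algebraMap R K (χ (-z)) else 0) -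
          algebraMap R K (χ (-z)) * (κ * (if h.a = β then 1 else 0)) := by
      intro z hz
      rw [mem_F0] at hz
      have hz' : -z + σ (-z) = 0 := by rw [map_neg]; linear_combination -hz
      rw [Pi.smul_apply, hA.ew, hB.cinv z hz, hF1w, Hei.mul_a, Hei.mul_c, cen_a hz', cen_c hz',
        map_zero, mul_zero, add_zero, zero_add, Algebra.smul_def]
      have i1 : (-z + h.c = c) ↔ z = h.c - c := by
        constructor
        · intro e
          linear_combination -e
        · intro e
          linear_combination -e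
      simp only [i1]
      split_ifs <;> ring
    rw [Finset.sum_congr rfl e, Finset.sum_sub_distrib, ← Finset.sum_mul, hsK, zero_mul, sub_zero,
      ← Finset.mul_sum, Finset.sum_ite_eq']
    congr 1
    have i3 : (h.c - c ∈ F0 σ) ↔ c + σ c = h.a * σ h.a := by
      rw [mem_F0, map_sub]
      have hh := h.h
      constructor
      · intro e
        linear_combination hh - e
      · intro e
        linear_combination hh - e
    simp only [i3]
  -- the block function for `g = 1`
  set φ : Hei hσ → K := fun g' : Hei hσ =>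
    κ * ∑ b ∈ Finset.univ.filter (fun b : F => c + σ c = b * σ b),
      DD K hσ χ ((pt hσ b c)⁻¹ * g') with hφ
  have hφw : ∀ h : Hei hσ, φ h = F2 (G.w h) := by
    intro h
    rw [hF2w]
    simp only [hφ]
    congr 1
    have e : ∀ b ∈ Finset.univ.filter (fun b : F => c + σ c = b * σ b),
        DD K hσ χ ((pt hσ b c)⁻¹ * h) =
          if b = h.a then algebraMap R K (χ (-(h.c - c))) else 0 := by
      intro b hb
      have hb' : c + σ c = b * σ b := (Finset.mem_filter.1 hb).2
      unfold DD
      have e1 : ((pt hσ b c)⁻¹ * h).a = 0 ↔ b = h.a := by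
        rw [Hei.mul_a, Hei.inv_a, pt_a hb']
        constructor
        · intro e
          linear_combination -e
        · intro e
          linear_combination -e
      by_cases hbh : b = h.a
      · have e2 : ((pt hσ b c)⁻¹ * h).c = h.c - c := by
          rw [Hei.mul_c, Hei.inv_c, Hei.inv_a, pt_a hb', pt_c hb', map_neg σ b, ← hbh]
          linear_combination hb'
        rw [if_pos (e1.2 hbh), if_pos hbh, e2]
      · rw [if_neg (fun h0 => hbh (e1.1 h0)), if_neg hbh]
    rw [Finset.sum_congr rfl e, Finset.sum_ite_eq']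
    have i4 : (h.a ∈ Finset.univ.filter (fun b : F => c + σ c = b * σ b)) ↔
        c + σ c = h.a * σ h.a := by
      rw [Finset.mem_filter]
      exact ⟨fun e => e.2, fun e => ⟨Finset.mem_univ _, e⟩⟩
    simp only [i4]
  have hφF : φ ∈ Fun R K hσ χ := by
    intro g z hz
    simp only [hφ]
    rw [← mul_smul_comm, Finset.smul_sum]
    congr 1
    refine Finset.sum_congr rfl fun b _ => ?_
    exact hB.fcen _ hB.DF _ g z hz
  have hφN : G.ext φ ∈ N := by
    have e := hA.dec F2 (hN.sup F2 hF2N)
    have e2 : (fun g => F2 (G.w g)) = φ := by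
      funext h
      exact (hφw h).symm
    have e3 : (fun s => F2 G.w0 * G.del K s) = 0 := by
      funext s
      rw [hF2w0, zero_mul]
      rfl
    rw [e2, e3, zero_add] at e
    rw [← e]
    exact hF2N
  -- general `g`
  have e : (fun g' : Hei hσ => κ * ∑ b ∈ Finset.univ.filter (fun b : F => c + σ c = b * σ b),
      DD K hσ χ ((g * pt hσ b c)⁻¹ * g')) = Lt R g φ := by
    funext g'
    rw [Lt_apply]
    simp only [hφ]
    congr 1
    refine Finset.sum_congr rfl fun b _ => ?_
    rw [mul_inv_rev, mul_assoc]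
  rw [e]
  refine ⟨hB.ltF g φ hφF, ?_⟩
  have e2 := hA.eext g φ
  have e3 : Lt R g φ = fun h => φ (g⁻¹ * h) := by
    funext h
    exact Lt_apply g h φ
  rw [e3, ← e2]
  exact hN.stab _ (G.e_mem _) _ hφN

end Pool.Agent.Helper36.GUM
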