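import Pool.Agent.Helper60.GUM.St

/-!
Project GUM (helper60), module WIT: Witt's theorem for vectors of a hermitian space.
-/

set_option autoImplicit false

namespace Pool.Agent.Helper36.GUM

open Module OG _root_.GUM

variable {k F X : Type*} [Field k] [Field F] [Algebra k F] [AddCommGroup X] [Module F X]
  {σ : F ≃ₐ[k] F} {B : HForm σ X}

/-- quasi-reflections -/
private def reflL (B : HForm σ X) (u : X) (a : F) : X →ₗ[F] X :=
  LinearMap.id + a • (B.l u).smulRight u

private theorem reflL_apply (u : X) (a : F) (x : X) :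
    reflL B u a x = x + (a * B.f x u) • u := by
  simp [reflL, mul_smul, HForm.l_apply]

private theorem reflL_comp (u : X) (a b : F) (h : a + b + a * b * B.f u u = 0) (x : X) :
    reflL B u a (reflL B u b x) = x := by
  rw [reflL_apply, reflL_apply, B.add, B.smul]
  have e : x + (b * B.f x u) • u + (a * (B.f x u + b * B.f x u * B.f u u)) • u =
      x + ((a + b + a * b * B.f u u) * B.f x u) • u := by module
  rw [e, h, zero_mul, zero_smul, add_zero]

private theorem exists_refl (Z : Submodule F X) (u : X) (hu : u ∈ Z) (a : F)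
    (h : a + σ a + a * σ a * B.f u u = 0) :
    ∃ g ∈ Gr B Z, ∀ x, g x = x + (a * B.f x u) • u := by
  have h' : σ a + a + σ a * a * B.f u u = 0 := by linear_combination h
  let g : X ≃ₗ[F] X := LinearEquiv.ofLinearMap (reflL B u a) (reflL B u (σ a))
    (by ext x; exact reflL_comp u a (σ a) h x) (by ext x; exact reflL_comp u (σ a) a h' x)
  have hg : ∀ x, g x = x + (a * B.f x u) • u := fun x => reflL_apply u a x
  refine ⟨g, ⟨fun x y => ?_, fun x => ?_, fun x hx => ?_⟩, hg⟩
  · rw [hg, hg, B.add, B.smul, B.add_r, B.add_r, B.smul_r, B.smul_r, map_mul, B.sym y u]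
    linear_combination (B.f x u * σ (B.f y u)) * h
  · rw [hg, add_sub_cancel_left]
    exact Z.smul_mem _ hu
  · rw [hg, hx u hu, mul_zero, zero_smul, add_zero]

private theorem gr_mul (Z : Submodule F X) (g h : X ≃ₗ[F] X) (hg : g ∈ Gr B Z)
    (hh : h ∈ Gr B Z) : g * h ∈ Gr B Z := by
  obtain ⟨g1, g2, g3⟩ := hg
  obtain ⟨h1, h2, h3⟩ := hh
  refine ⟨fun x y => ?_, fun x => ?_, fun x hx => ?_⟩
  · show B.f (g (h x)) (g (h y)) = B.f x y
    rw [g1, h1]
  · show g (h x) - x ∈ Z
    have e : g (h x) - x = (g (h x) - h x) + (h x - x) := by abel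
    rw [e]
    exact Z.add_mem (g2 _) (h2 _)
  · show g (h x) = x
    rw [h3 x hx, g3 x hx]

/-- step (1) -/
private theorem wit1 (Z : Submodule F X) (y y' : X) (hy : y ∈ Z) (hy' : y' ∈ Z)
    (hN : B.f y y = B.f y' y') (hs : B.f y y' ≠ B.f y y) : ∃ g ∈ Gr B Z, g y = y' := by
  set s : F := B.f y y - B.f y y' with hsd
  have hs0 : s ≠ 0 := sub_ne_zero.2 (Ne.symm hs)
  have hσs : σ s ≠ 0 := by
    intro h0
    exact hs0 ((map_eq_zero_iff σ σ.injective).1 h0)
  have hNσ : σ (B.f y y) = B.f y y := (B.sym y y).symm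
  have hss : σ s = B.f y y - B.f y' y := by
    rw [hsd, map_sub, hNσ, ← B.sym]
  have huu : B.f (y - y') (y - y') = s + σ s := by
    rw [B.sub_l, B.sub_r, B.sub_r, hss, hsd, ← hN]
    ring
  obtain ⟨g, hg, hgx⟩ := exists_refl Z (y - y') (Z.sub_mem hy hy') (-s⁻¹) (by
    rw [huu, map_neg, map_inv₀]
    field_simp
    ring)
  refine ⟨g, hg, ?_⟩
  rw [hgx, B.sub_r]
  have e : -s⁻¹ * (B.f y y - B.f y y') = -1 := by
    rw [← hsd]
    field_simp
  rw [e]
  module

/-- surjectivity of the trace -/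
private theorem wit_tr (hQ : UN.QE σ) (a : F) (ha : σ a = a) : ∃ x : F, x + σ x = a := by
  obtain ⟨t, ht⟩ : ∃ t : F, t + σ t ≠ 0 := by
    by_cases h2 : (1 : F) + 1 = 0
    · obtain ⟨t, ht⟩ := hQ.ne
      refine ⟨t, fun h => ht ?_⟩
      linear_combination h - t * h2
    · exact ⟨1, by rw [map_one]; exact h2⟩
  refine ⟨a * t / (t + σ t), ?_⟩
  have ht' : σ t + t ≠ 0 := by rw [add_comm]; exact ht
  rw [map_div₀, map_mul, map_add, hQ.inv, ha, add_comm (σ t) t]
  field_simp

theorem hWit (hQ : UN.QE σ) : StWit B := by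
  intro Z hZ y hy y' hy' hy0 hy0' hN
  by_cases hs : B.f y y' = B.f y y
  swap
  · exact wit1 Z y y' hy hy' hN hs
  -- an intermediate vector
  obtain ⟨z, hz, hzz, h1, h2⟩ : ∃ z ∈ Z, B.f z z = B.f y y ∧ B.f y z ≠ B.f y y ∧
      B.f z y' ≠ B.f z z := by
    by_cases hN0 : B.f y y = 0
    · have hd : ∀ v ∈ Z, v ≠ 0 → ∃ w ∈ Z, B.f w v ≠ 0 := by
        intro v hv hv0
        obtain ⟨w, hw, hvw⟩ := hZ v hv hv0
        refine ⟨w, hw, fun h0 => hvw ?_⟩
        exact B.swap0 h0
      obtain ⟨w1, hw1, hw1y⟩ := hd y hy hy0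
      obtain ⟨w2, hw2, hw2y⟩ := hd y' hy' hy0'
      obtain ⟨w, hw, ha, hb⟩ : ∃ w ∈ Z, B.f w y ≠ 0 ∧ B.f w y' ≠ 0 := by
        by_cases c1 : B.f w1 y' = 0
        · by_cases c2 : B.f w2 y = 0
          · refine ⟨w1 + w2, Z.add_mem hw1 hw2, ?_, ?_⟩
            · rw [B.add, c2, add_zero]; exact hw1y
            · rw [B.add, c1, zero_add]; exact hw2y
          · exact ⟨w2, hw2, c2, hw2y⟩
        · exact ⟨w1, hw1, hw1y, c1⟩
      obtain ⟨x, hx⟩ := wit_tr hQ (-B.f w w) (by rw [map_neg, ← B.sym w w])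
      have hyw : B.f y w ≠ 0 := fun h0 => ha (B.swap0 h0)
      have hN0' : B.f y y' = 0 := by rw [hs, hN0]
      set c : F := x / B.f y w with hc
      have hcx : c * B.f y w = x := by rw [hc]; field_simp
      have hcx' : σ c * B.f w y = σ x := by rw [← hcx, map_mul, ← B.sym y w]
      have hzz : B.f (w + c • y) (w + c • y) = 0 := by
        rw [B.add, B.smul, B.add_r, B.add_r, B.smul_r, B.smul_r, hN0, hcx', mul_zero, add_zero,
          hcx]
        linear_combination hx
      refine ⟨w + c • y, Z.add_mem hw (Z.smul_mem _ hy), ?_, ?_, ?_⟩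
      · rw [hzz, hN0]
      · rw [B.add_r, B.smul_r, hN0, mul_zero, add_zero]
        exact hyw
      · rw [hzz, B.add, B.smul, hN0', mul_zero, add_zero]
        exact hb
    · obtain ⟨t, ht⟩ := hQ.ne
      have ht0 : t ≠ 0 := by
        rintro rfl
        exact ht (map_zero σ)
      have hσt0 : σ t ≠ 0 := by
        intro h0
        exact ht0 ((map_eq_zero_iff σ σ.injective).1 h0)
      set lam : F := σ t / t with hlam
      have hσl : σ lam = t / σ t := by rw [hlam, map_div₀, hQ.inv]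
      have hl1 : lam ≠ 1 := by
        intro h0
        rw [hlam, div_eq_one_iff_eq ht0] at h0
        exact ht h0
      have hsl1 : σ lam ≠ 1 := by
        intro h0
        apply hl1
        apply σ.injective
        rw [h0, map_one]
      have hll : lam * σ lam = 1 := by
        rw [hσl, hlam]
        field_simp
      refine ⟨lam • y, Z.smul_mem _ hy, ?_, ?_, ?_⟩
      · rw [B.smul, B.smul_r, ← mul_assoc, hll, one_mul]
      · rw [B.smul_r]
        intro h0
        apply hsl1
        exact mul_right_cancel₀ hN0 (by rw [h0, one_mul])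
      · rw [B.smul, B.smul, B.smul_r, hs, ← mul_assoc, hll, one_mul]
        intro h0
        apply hl1
        exact mul_right_cancel₀ hN0 (by rw [h0, one_mul])
  obtain ⟨g1, hg1, e1⟩ := wit1 Z y z hy hz hzz.symm h1
  obtain ⟨g2, hg2, e2⟩ := wit1 Z z y' hz hy' (by rw [hzz, hN]) h2
  refine ⟨g2 * g1, gr_mul Z g2 g1 hg2 hg1, ?_⟩
  show g2 (g1 y) = y'
  rw [e1, e2]

end Pool.Agent.Helper36.GUM
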